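import Pool.Agent.PGm.M34

/-!
# MP_dfe0a1_co: exact equation for the growth constant of unlabelled planar graphs

`u n` is the number of isomorphism classes of planar simple graphs on `n` vertices, `r n` the number
of isomorphism classes of connected planar graphs on `n` vertices with a root vertex, `b n` the
number of isomorphism classes of connected planar graphs on `n` vertices with a root arc (two
adjacent vertices `v, w`, ordered) such that neither `v` nor `w` is a cut vertex.
-/

namespace Pool.Agent.PGd.Old.CriticalEquation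

open Equiv

/-- the permutation of the darts reversing every dart -/
def rev {V : Type} (G : SimpleGraph V) : Perm G.Dart :=
  ⟨SimpleGraph.Dart.symm, SimpleGraph.Dart.symm, fun d => d.symm_symm, fun d => d.symm_symm⟩

/-- number of cycles of a permutation, fixed points included -/
noncomputable def numCycles {T : Type} (s : Perm T) : ℕ :=
  Nat.card (Quotient (Perm.SameCycle.setoid s))

/-- `G` is planar: there is a rotation system `s` (its cycles are the sets of darts with a given
first vertex, the edges around that vertex in cyclic order) such that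
`#vertices + #faces = #edges + 2 * #components`.  The cycles of `s` are the vertices of positive
degree, the faces are the cycles of `rev G * s`, and the components are those with at least one
edge; so this is Euler's formula for an embedding in the sphere of every component (isolated
vertices do not matter). -/
def IsPlanar {V : Type} (G : SimpleGraph V) : Prop :=
  ∃ s : Perm G.Dart, (∀ d d', s.SameCycle d d' ↔ d.fst = d'.fst) ∧
    numCycles s + numCycles (rev G * s) = Nat.card G.edgeSet +
      2 * Nat.card {c : G.ConnectedComponent // ∃ d : G.Dart, G.connectedComponentMk d.fst = c}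

/-- isomorphism of planar graphs on `Fin n` -/
def isoSetoid (n : ℕ) : Setoid {G : SimpleGraph (Fin n) // IsPlanar G} where
  r G H := Nonempty (G.1 ≃g H.1)
  iseqv := ⟨fun _ => ⟨SimpleGraph.Iso.refl⟩, fun ⟨h⟩ => ⟨h.symm⟩, fun ⟨h⟩ ⟨h'⟩ => ⟨h.trans h'⟩⟩

/-- the number of unlabelled planar graphs on `n` vertices -/
noncomputable def u (n : ℕ) : ℕ := Nat.card (Quotient (isoSetoid n))

/-- connected planar graphs on `Fin n` with a root vertex -/
def Rooted (n : ℕ) : Type := {p : SimpleGraph (Fin n) × Fin n // p.1.Connected ∧ IsPlanar p.1}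

/-- isomorphism respecting the root vertex -/
def rootSetoid (n : ℕ) : Setoid (Rooted n) where
  r p q := ∃ f : p.1.1 ≃g q.1.1, f p.1.2 = q.1.2
  iseqv := ⟨fun _ => ⟨SimpleGraph.Iso.refl, rfl⟩,
    fun ⟨f, h⟩ => ⟨f.symm, by rw [← h]; exact f.symm_apply_apply _⟩,
    fun ⟨f, h⟩ ⟨g, h'⟩ => ⟨f.trans g, by rw [← h', ← h]; rfl⟩⟩

/-- number of unlabelled connected planar graphs on `n` vertices with a root vertex -/
noncomputable def r (n : ℕ) : ℕ := Nat.card (Quotient (rootSetoid n))

/-- deleting `v` leaves a connected graph -/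
def NonCut {V : Type} (G : SimpleGraph V) (v : V) : Prop := (G.induce {v}ᶜ).Preconnected

/-- connected planar graphs on `Fin n` with a root arc whose ends are not cut vertices -/
def ArcRooted (n : ℕ) : Type := {p : SimpleGraph (Fin n) × Fin n × Fin n //
  p.1.Connected ∧ IsPlanar p.1 ∧ p.1.Adj p.2.1 p.2.2 ∧ NonCut p.1 p.2.1 ∧ NonCut p.1 p.2.2}

/-- isomorphism respecting the root arc -/
def arcSetoid (n : ℕ) : Setoid (ArcRooted n) where
  r p q := ∃ f : p.1.1 ≃g q.1.1, f p.1.2.1 = q.1.2.1 ∧ f p.1.2.2 = q.1.2.2
  iseqv := ⟨fun _ => ⟨SimpleGraph.Iso.refl, rfl, rfl⟩,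
    fun ⟨f, h, h'⟩ => ⟨f.symm, by rw [← h]; exact f.symm_apply_apply _,
      by rw [← h']; exact f.symm_apply_apply _⟩,
    fun ⟨f, h1, h1'⟩ ⟨g, h2, h2'⟩ => ⟨f.trans g, by rw [← h2, ← h1]; rfl, by rw [← h2', ← h1']; rfl⟩⟩

/-- number of unlabelled connected planar graphs on `n` vertices with a root arc whose ends are
not cut vertices -/
noncomputable def b (n : ℕ) : ℕ := Nat.card (Quotient (arcSetoid n))

/-- The growth constant `γ = lim (u n)^(1/n)` of the unlabelled planar graphs exists, and `1/γ` is
the only positive `x` at which both generating functions `K(x) = ∑ r(n) x^n` and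
`N(x) = ∑ b(n+2) x^n` converge and the point `(K(x), 2 N(x) - 1)` lies on the explicit curve
`((1+3t)(1-t)³/(16t³), 3t²/((1-t)(1+3t)))`, `0 < t < 1`. -/
theorem result : ∃ ρ : ℝ, 0 < ρ ∧
    Filter.Tendsto (fun n : ℕ => (u n : ℝ) ^ (1 / n : ℝ)) Filter.atTop (nhds (1 / ρ)) ∧
    ∀ x : ℝ, 0 < x →
      (((Summable fun n => (r n : ℝ) * x ^ n) ∧ (Summable fun n => (b (n + 2) : ℝ) * x ^ n) ∧
        ∃ t : ℝ, 0 < t ∧ t < 1 ∧
          ∑' n, (r n : ℝ) * x ^ n = (1 + 3 * t) * (1 - t) ^ 3 / (16 * t ^ 3) ∧
          2 * ∑' n, (b (n + 2) : ℝ) * x ^ n - 1 = 3 * t ^ 2 / ((1 - t) * (1 + 3 * t))) ↔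
        x = ρ) :=
  PGr.critical_equation

end Pool.Agent.PGd.Old.CriticalEquation
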