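import Pool.Agent.PGr.Final

/-!
# MP_dfe0a1_co: the growth constant of unlabelled planar graphs is at most `27.7`

`u n` is the number of isomorphism classes of planar simple graphs on `n` vertices.  Planarity is
combinatorial planarity (Heffter, Edmonds): there is a rotation system of genus zero.
-/

namespace Pool.Agent.PGd.Old.UpperBound

open Equiv

/-- the permutation of the darts reversing every dart -/
def rev {V : Type} (G : SimpleGraph V) : Perm G.Dart :=
  ⟨SimpleGraph.Dart.symm, SimpleGraph.Dart.symm, fun d => d.symm_symm, fun d => d.symm_symm⟩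

/-- number of cycles of a permutation, fixed points included -/
noncomputable def numCycles {T : Type} (s : Perm T) : ℕ :=
  Nat.card (Quotient (Perm.SameCycle.setoid s))

/-- `G` is planar: there is a rotation system `s` (its cycles are the sets of darts with a given
first vertex, the edges around that vertex in cyclic order) such that
`#vertices + #faces = #edges + 2 * #components`.  The cycles of `s` are the vertices of positive
degree, the faces are the cycles of `rev G * s`, and the components are those with at least one
edge; so this is Euler's formula for an embedding in the sphere of every component (isolated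
vertices do not matter). -/
def IsPlanar {V : Type} (G : SimpleGraph V) : Prop :=
  ∃ s : Perm G.Dart, (∀ d d', s.SameCycle d d' ↔ d.fst = d'.fst) ∧
    numCycles s + numCycles (rev G * s) = Nat.card G.edgeSet +
      2 * Nat.card {c : G.ConnectedComponent // ∃ d : G.Dart, G.connectedComponentMk d.fst = c}

/-- isomorphism of planar graphs on `Fin n` -/
def isoSetoid (n : ℕ) : Setoid {G : SimpleGraph (Fin n) // IsPlanar G} where
  r G H := Nonempty (G.1 ≃g H.1)
  iseqv := ⟨fun _ => ⟨SimpleGraph.Iso.refl⟩, fun ⟨h⟩ => ⟨h.symm⟩, fun ⟨h⟩ ⟨h'⟩ => ⟨h.trans h'⟩⟩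

/-- the number of unlabelled planar graphs on `n` vertices -/
noncomputable def u (n : ℕ) : ℕ := Nat.card (Quotient (isoSetoid n))

theorem u_eq (n : ℕ) : u n = PGr.u n := rfl

/-- `u n ≤ (47/1250) * 27.7 ^ (n + 1)` for all `n`; consequently the growth constant
`lim (u n) ^ (1/n)` of the unlabelled planar graphs is at most `27.7`. -/
theorem result :
    (∀ n : ℕ, (u n : ℝ) ≤ 47 / 1250 * (277 / 10) ^ (n + 1)) ∧
    (∀ γ : ℝ, Filter.Tendsto (fun n : ℕ => (u n : ℝ) ^ (1 / n : ℝ)) Filter.atTop (nhds γ) →
      γ ≤ 277 / 10) :=
  ⟨PGr.u_bound, fun _ h => PGr.growth_le h⟩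

end Pool.Agent.PGd.Old.UpperBound
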